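import Pool.Agent.Helper77.K3.DefsII
import Pool.Agent.Helper33.K3.coord

/-!
# Kleinian structures in dimension three: triangular groups with `lin 0 0 = 1`, first half
-/

set_option autoImplicit false

open Set Filter Topology Matrix

namespace Pool.Agent.Helper64.K3.T2disc

open Pool.Agent.Helper77.K3 Pool.Agent.Helper33.K3

lemma ind3 (a b : E) : Ind3 (e 0) a b ↔ a 1 * b 2 - a 2 * b 1 ≠ 0 := by
  have h : (Matrix.of ![e 0, a, b] : M3).det = a 1 * b 2 - a 2 * b 1 := by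
    rw [Matrix.det_fin_three]
    simp [e]
  rw [← h, ← isUnit_iff_ne_zero, ← Matrix.isUnit_iff_isUnit_det,
    ← Matrix.linearIndependent_rows_iff_isUnit]
  rfl

lemma tr_one (i : Fin 3) : tr 1 i = 0 := rfl

/-- The facts about the elements of the group. -/
structure Hyp (Γ : Subgroup Aff3) : Prop where
  a10 : ∀ γ ∈ Γ, lin γ 1 0 = 0
  a20 : ∀ γ ∈ Γ, lin γ 2 0 = 0
  a21 : ∀ γ ∈ Γ, lin γ 2 1 = 0
  a12 : ∀ γ ∈ Γ, lin γ 1 2 = 0
  det : ∀ γ ∈ Γ, lin γ 1 1 * lin γ 2 2 = 1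

variable {Γ : Subgroup Aff3}

lemma Hyp.tr1 (H : Hyp Γ) {γ δ : Aff3} (h : γ ∈ Γ) :
    tr (γ * δ) 1 = lin γ 1 1 * tr δ 1 + tr γ 1 := by
  rw [tr_mul, H.a10 γ h, H.a12 γ h]
  ring

lemma Hyp.tr2 (H : Hyp Γ) {γ δ : Aff3} (h : γ ∈ Γ) :
    tr (γ * δ) 2 = lin γ 2 2 * tr δ 2 + tr γ 2 := by
  rw [tr_mul, H.a20 γ h, H.a21 γ h]
  ring

lemma Hyp.lin1 (H : Hyp Γ) {γ δ : Aff3} (h : γ ∈ Γ) :
    lin (γ * δ) 1 1 = lin γ 1 1 * lin δ 1 1 := by
  rw [lin_mul, H.a10 γ h, H.a12 γ h]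
  ring

lemma Hyp.lin2 (H : Hyp Γ) {γ δ : Aff3} (h : γ ∈ Γ) :
    lin (γ * δ) 2 2 = lin γ 2 2 * lin δ 2 2 := by
  rw [lin_mul, H.a20 γ h, H.a21 γ h]
  ring

lemma lin_one (i : Fin 3) : lin 1 i i = 1 := by
  show (e i : E) i = 1
  simp [e]

lemma Hyp.l1 (H : Hyp Γ) {γ : Aff3} (h : γ ∈ Γ) (h2 : lin γ 2 2 = 1) : lin γ 1 1 = 1 := by
  have := H.det γ h
  rw [h2] at this
  linarith

/-- The group of translation parts. -/
def T (H : Hyp Γ) : AddSubgroup (Fin 2 → ℝ) where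
  carrier := {t | ∃ τ ∈ Γ, lin τ 2 2 = 1 ∧ tr τ 1 = t 0 ∧ tr τ 2 = t 1}
  zero_mem' := ⟨1, Γ.one_mem, lin_one 2, rfl, rfl⟩
  add_mem' := by
    rintro s t ⟨σ, hσ, h1, h2, h3⟩ ⟨τ, hτ, h4, h5, h6⟩
    refine ⟨σ * τ, Γ.mul_mem hσ hτ, ?_, ?_, ?_⟩
    · rw [H.lin2 hσ, h1, h4, mul_one]
    · rw [H.tr1 hσ, H.l1 hσ h1, h2, h5, Pi.add_apply]
      ring
    · rw [H.tr2 hσ, h1, h3, h6, Pi.add_apply]
      ring
  neg_mem' := by
    rintro t ⟨τ, hτ, h1, h2, h3⟩
    have h4 : lin τ⁻¹ 2 2 = 1 := by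
      have := H.lin2 (δ := τ⁻¹) hτ
      rw [mul_inv_cancel, lin_one, h1, one_mul] at this
      exact this.symm
    refine ⟨τ⁻¹, Γ.inv_mem hτ, h4, ?_, ?_⟩
    · have := H.tr1 (δ := τ⁻¹) hτ
      rw [mul_inv_cancel, tr_one, H.l1 hτ h1, h2] at this
      rw [Pi.neg_apply]
      linarith
    · have := H.tr2 (δ := τ⁻¹) hτ
      rw [mul_inv_cancel, tr_one, h1, h3] at this
      rw [Pi.neg_apply]
      linarith

lemma mem_T (H : Hyp Γ) (t : Fin 2 → ℝ) :
    t ∈ T H ↔ ∃ τ ∈ Γ, lin τ 2 2 = 1 ∧ tr τ 1 = t 0 ∧ tr τ 2 = t 1 := Iff.rfl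

lemma conj_T (H : Hyp Γ) (g : Aff3) (hg : g ∈ Γ) (h1 : tr g 1 = 0) (h2 : tr g 2 = 0)
    (t : Fin 2 → ℝ) : t ∈ T H ↔ ![(lin g 2 2)⁻¹ * t 0, lin g 2 2 * t 1] ∈ T H := by
  have hne : lin g 2 2 ≠ 0 := by
    intro h
    have := H.det g hg
    rw [h] at this
    simp at this
  have h11 : lin g 1 1 = (lin g 2 2)⁻¹ := eq_inv_of_mul_eq_one_left (H.det g hg)
  rw [mem_T, mem_T]
  constructor
  · rintro ⟨τ, hτ, h3, h4, h5⟩
    have hσ : g * τ * g⁻¹ ∈ Γ := Γ.mul_mem (Γ.mul_mem hg hτ) (Γ.inv_mem hg)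
    have hE : (g * τ * g⁻¹) * g = g * τ := by group
    have e1 := H.lin2 (δ := g) hσ
    have e2 := H.tr1 (δ := g) hσ
    have e3 := H.tr2 (δ := g) hσ
    rw [hE] at e1 e2 e3
    rw [H.lin2 hg, h3, mul_one] at e1
    rw [H.tr1 hg, h1, h4, h11] at e2
    rw [H.tr2 hg, h2, h5] at e3
    have e4 : lin (g * τ * g⁻¹) 2 2 = 1 := by
      have : lin g 2 2 * 1 = lin g 2 2 * lin (g * τ * g⁻¹) 2 2 := by linarith
      exact (mul_left_cancel₀ hne this).symm
    refine ⟨_, hσ, e4, ?_, ?_⟩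
    · simp only [Matrix.cons_val_zero]
      linarith
    · simp only [Matrix.cons_val_one, Matrix.cons_val_fin_one]
      linarith
  · rintro ⟨τ, hτ, h3, h4, h5⟩
    simp only [Matrix.cons_val_zero] at h4
    simp only [Matrix.cons_val_one, Matrix.cons_val_fin_one] at h5
    have hσ : g⁻¹ * τ * g ∈ Γ := Γ.mul_mem (Γ.mul_mem (Γ.inv_mem hg) hτ) hg
    have hE : g * (g⁻¹ * τ * g) = τ * g := by group
    have e1 := H.lin2 (δ := g⁻¹ * τ * g) hg
    have e2 := H.tr1 (δ := g⁻¹ * τ * g) hg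
    have e3 := H.tr2 (δ := g⁻¹ * τ * g) hg
    rw [hE] at e1 e2 e3
    rw [H.lin2 hτ, h3, one_mul] at e1
    rw [H.tr1 hτ, H.l1 hτ h3, h1, h4, h11] at e2
    rw [H.tr2 hτ, h2, h5] at e3
    refine ⟨_, hσ, ?_, ?_, ?_⟩
    · have : lin g 2 2 * 1 = lin g 2 2 * lin (g⁻¹ * τ * g) 2 2 := by linarith
      exact (mul_left_cancel₀ hne this).symm
    · have : (lin g 2 2)⁻¹ * t 0 = (lin g 2 2)⁻¹ * tr (g⁻¹ * τ * g) 1 := by linarith
      exact (mul_left_cancel₀ (inv_ne_zero hne) this).symm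
    · have : lin g 2 2 * t 1 = lin g 2 2 * tr (g⁻¹ * τ * g) 2 := by linarith
      exact (mul_left_cancel₀ hne this).symm

theorem T2disc (h_leafB : S_leafB) (h_c0 : S_c0) (h_move : S_move) (h_frame : S_frame)
    (h_nondisc : S_nondisc) (h_lat2 : S_lat2) (h_F1 : S_F1) (h_F2 : S_F2) (h_K : S_K) :
    S_T2disc := by
  intro D g hTri h00 hg hχ g01 g02 g12 t1 t2 hΩ
  -- `K` is invariant under `e 0`
  have he0 : ∀ γ ∈ D.Γ, γ.linear (e 0) = e 0 := by
    intro γ hγ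
    ext i
    have h := hTri γ hγ
    have h' : γ.linear (e 0) i = lin γ i 0 := rfl
    rw [h']
    fin_cases i
    · rw [show ((⟨0, by decide⟩ : Fin 3)) = 0 from rfl, h00 γ hγ]
      simp [e]
    · rw [show ((⟨1, by decide⟩ : Fin 3)) = 1 from rfl, h.1]
      simp [e]
    · rw [show ((⟨2, by decide⟩ : Fin 3)) = 2 from rfl, h.2.1]
      simp [e]
  have hΩinv : ∀ x ∈ D.Ω, ∀ t : ℝ, x + t • e 0 ∈ D.Ω := by
    refine h_leafB D ⊥ (e 0) (fun _ => 1) ?_ ?_ ⟨1, fun _ _ => by simp⟩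
    · intro x hx w hw
      rw [Submodule.mem_bot] at hw
      rwa [hw, add_zero]
    · intro γ hγ
      rw [he0 γ hγ, one_smul, sub_self]
      exact Submodule.zero_mem _
  have hKI : D.KInv := by
    intro x hx t hc
    refine hx ?_
    have h2 := hΩinv _ hc (-t)
    rwa [add_assoc, ← add_smul, add_neg_cancel, zero_smul, add_zero] at h2
  obtain ⟨hclosed, hKiff⟩ := h_K D
  -- the frame of `g`
  have hgT := hTri g hg
  have g11 : lin g 1 1 = (lin g 2 2)⁻¹ := by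
    have h := hgT.2.2.2.2.2.2
    rw [h00 g hg, one_mul] at h
    exact eq_inv_of_mul_eq_one_left h
  have hF : HypF g (lin g 2 2) (tr g 0) 0 (e 2) (e 1) := by
    refine ⟨hχ, he0 g hg, ?_, ?_, ?_, ?_⟩
    · ext i
      have h' : g.linear (e 2) i = lin g i 2 := rfl
      rw [h']
      fin_cases i
      · simp [e, g02]
      · simp [e, g12]
      · simp [e]
    · ext i
      have h' : g.linear (e 1) i = lin g i 1 := rfl
      rw [h']
      fin_cases i
      · simp [e, g01]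
      · simp [e, g11]
      · simp [e, hgT.2.2.1]
    · ext i
      have h' : g 0 i = tr g i := rfl
      rw [h']
      fin_cases i
      · simp [e]
      · simp [e, t1]
      · simp [e, t2]
    · have : Ind3 (e 0) (e 2) (e 1) := by
        rw [ind3]
        simp [e]
      exact this
  have ht0 : tr g 0 ≠ 0 := by
    intro h
    rw [h] at hF
    exact h_c0 D g _ _ _ _ hKI hg hF
  have h12 : ∀ γ ∈ D.Γ, lin γ 1 2 = 0 := by
    intro γ hγ
    by_contra hne
    refine h_move D g⁻¹ γ _ _ _ _ _ hKI (D.Γ.inv_mem hg) hγ (h_frame.2.1 _ _ _ _ _ _ hF)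
      (he0 γ hγ) ?_
    rw [ind3]
    have h' : ∀ i, γ.linear (e 2) i = lin γ i 2 := fun i => rfl
    rw [h', h']
    simp [e, hne]
  have H : Hyp D.Γ := by
    refine ⟨fun γ h => (hTri γ h).1, fun γ h => (hTri γ h).2.1, fun γ h => (hTri γ h).2.2.1, h12,
      fun γ h => ?_⟩
    have h2 := (hTri γ h).2.2.2.2.2.2
    rwa [h00 γ h, one_mul] at h2
  refine ⟨hKI, ht0, h12, ?_⟩
  -- a point of the complement
  obtain ⟨x₀, hx₀⟩ : ∃ x, x ∈ D.K := by
    by_contra hcon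
    push Not at hcon
    exact hΩ (eq_univ_of_forall fun x => not_not.1 (hcon x))
  -- invariance of `K` under the translations
  have hKT : ∀ t ∈ T H, ∀ x ∈ D.K, x + ![0, t 0, t 1] ∈ D.K := by
    rintro t ⟨τ, hτ, h3, h4, h5⟩ x hx
    have h6 : τ x ∈ D.K := (hKiff τ hτ x).2 hx
    have h7 := hKI _ h6 (x 0 - (τ x) 0)
    have h8 : τ x + (x 0 - (τ x) 0) • e 0 = x + ![0, t 0, t 1] := by
      ext i
      fin_cases i
      · simp [e]
      · have := apply_coord τ x 1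
        rw [H.a10 τ hτ, H.a12 τ hτ, H.l1 hτ h3, h4] at this
        simp [e, this]
      · have := apply_coord τ x 2
        rw [H.a20 τ hτ, H.a21 τ hτ, h3, h5] at this
        simp [e, this]
    rwa [h8] at h7
  have hKcl : ∀ t ∈ closure (T H : Set (Fin 2 → ℝ)), ∀ x ∈ D.K, x + ![0, t 0, t 1] ∈ D.K := by
    intro t ht x hx
    have hc : IsClosed {t : Fin 2 → ℝ | x + ![0, t 0, t 1] ∈ D.K} := by
      refine hclosed.preimage ?_
      refine continuous_const.add ?_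
      refine continuous_pi fun i => ?_
      fin_cases i
      · exact continuous_const
      · exact continuous_apply 0
      · exact continuous_apply 1
    exact closure_minimal (fun t ht => hKT t ht x hx) hc ht
  have hdisc : ∃ ε > 0, ∀ t ∈ T H, ‖t‖ < ε → t = 0 := by
    by_contra hcon
    push Not at hcon
    obtain ⟨w, hw, hwr⟩ := h_nondisc (T H) (by
      intro ε hε
      obtain ⟨t, h3, h4, h5⟩ := hcon ε hε
      exact ⟨t, h3, h5, h4⟩)
    obtain ⟨x, hxΩ, hx⟩ := h_F2 D ![0, -(w 1), w 0] (-(w 1) * x₀ 1 + w 0 * x₀ 2) (by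
      intro h
      apply hw
      have h1 := congrFun h 1
      have h2 := congrFun h 2
      simp only [Matrix.cons_val_one, Matrix.cons_val_zero, Pi.zero_apply, neg_eq_zero] at h1
      simp only [Matrix.cons_val, Pi.zero_apply] at h2
      ext i
      fin_cases i
      · exact h2
      · exact h1)
    simp only [Matrix.cons_val_one, Matrix.cons_val_zero, Matrix.cons_val, zero_mul,
      zero_add] at hx
    have hn : w 0 ^ 2 + w 1 ^ 2 ≠ 0 := by
      intro h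
      apply hw
      have hs0 := sq_nonneg (w 0)
      have hs1 := sq_nonneg (w 1)
      have hw0 : w 0 = 0 := (pow_eq_zero_iff two_ne_zero).1 (by linarith)
      have hw1 : w 1 = 0 := (pow_eq_zero_iff two_ne_zero).1 (by linarith)
      ext i
      fin_cases i
      · exact hw0
      · exact hw1
    set r : ℝ := ((x 1 - x₀ 1) * w 0 + (x 2 - x₀ 2) * w 1) / (w 0 ^ 2 + w 1 ^ 2) with hr
    have h3 := hKcl _ (hwr r) x₀ hx₀
    have h4 := hKI _ h3 (x 0 - x₀ 0)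
    have h5 : x₀ + ![0, (r • w) 0, (r • w) 1] + (x 0 - x₀ 0) • e 0 = x := by
      have hA : -(w 1) * (x 1 - x₀ 1) + w 0 * (x 2 - x₀ 2) = 0 := by linarith
      ext i
      fin_cases i
      · simp only [Fin.zero_eta, Pi.add_apply, Pi.smul_apply, smul_eq_mul, Matrix.cons_val_zero,
          e, Pi.single_eq_same]
        ring
      · simp only [Fin.mk_one, Pi.add_apply, Pi.smul_apply, smul_eq_mul, Matrix.cons_val_one,
          Matrix.cons_val_zero, e, Pi.single_apply]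
        rw [if_neg (by decide), hr]
        field_simp
        linear_combination (w 1) * hA
      · simp only [Fin.reduceFinMk, Pi.add_apply, Pi.smul_apply, smul_eq_mul, Matrix.cons_val,
          e, Pi.single_apply]
        rw [if_neg (by decide), hr]
        field_simp
        linear_combination (-(w 0)) * hA
    rw [h5] at h4
    exact h4 hxΩ
  have hbot : T H ≠ ⊥ := by
    intro hb
    have hz : ∀ σ ∈ D.Γ, lin σ 2 2 = 1 → tr σ 1 = 0 ∧ tr σ 2 = 0 := by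
      intro σ hσ h3
      have h4 : ![tr σ 1, tr σ 2] ∈ T H := ⟨σ, hσ, h3, rfl, rfl⟩
      rw [hb, AddSubgroup.mem_bot] at h4
      exact ⟨congrFun h4 0, congrFun h4 1⟩
    have hall : ∀ h ∈ D.Γ, tr h 1 = 0 ∧ tr h 2 = 0 := by
      intro h hh
      have hne : lin g 2 2 ≠ 0 := by positivity
      have hσ : h * g * h⁻¹ * g⁻¹ ∈ D.Γ :=
        D.Γ.mul_mem (D.Γ.mul_mem (D.Γ.mul_mem hh hg) (D.Γ.inv_mem hh)) (D.Γ.inv_mem hg)
      have hE : (h * g * h⁻¹ * g⁻¹) * (g * h) = h * g := by group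
      have e1 := H.lin2 (δ := g * h) hσ
      rw [hE, H.lin2 hh, H.lin2 hg] at e1
      have hh2 : lin h 2 2 ≠ 0 := by
        intro h0
        have := H.det h hh
        rw [h0] at this
        simp at this
      have e2 : lin (h * g * h⁻¹ * g⁻¹) 2 2 = 1 := by
        have : (lin g 2 2 * lin h 2 2) * 1 =
            (lin g 2 2 * lin h 2 2) * lin (h * g * h⁻¹ * g⁻¹) 2 2 := by linarith
        exact (mul_left_cancel₀ (mul_ne_zero hne hh2) this).symm
      obtain ⟨e3, e4⟩ := hz _ hσ e2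
      have e5 := H.tr1 (δ := g * h) hσ
      have e6 := H.tr2 (δ := g * h) hσ
      rw [hE, H.tr1 hh, H.tr1 hg, e3, t1, H.l1 hσ e2, g11] at e5
      rw [hE, H.tr2 hh, H.tr2 hg, e4, t2, e2] at e6
      constructor
      · have h7 : (1 - (lin g 2 2)⁻¹) * tr h 1 = 0 := by linarith
        rcases mul_eq_zero.1 h7 with h8 | h8
        · exfalso
          have h9 : (lin g 2 2)⁻¹ < 1 := inv_lt_one_of_one_lt₀ hχ
          linarith
        · exact h8
      · have h7 : (1 - lin g 2 2) * tr h 2 = 0 := by linarith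
        rcases mul_eq_zero.1 h7 with h8 | h8
        · exfalso
          linarith
        · exact h8
    have hC := h_F1 D {x : E | x 1 = 0 ∧ x 2 = 0} (by
      intro x hx y hy a b _ _ _
      constructor
      · simp only [Pi.add_apply, Pi.smul_apply, smul_eq_mul, hx.1, hy.1]
        ring
      · simp only [Pi.add_apply, Pi.smul_apply, smul_eq_mul, hx.2, hy.2]
        ring) ⟨0, rfl, rfl⟩ (by
      intro γ hγ x hx
      obtain ⟨h3, h4⟩ := hall γ hγ
      constructor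
      · rw [apply_coord, H.a10 γ hγ, H.a12 γ hγ, hx.1, h3]
        ring
      · rw [apply_coord, H.a20 γ hγ, H.a21 γ hγ, hx.2, h4]
        ring)
    have h9 : (e 1 : E) ∈ {x : E | x 1 = 0 ∧ x 2 = 0} := by
      rw [hC]
      exact mem_univ _
    have h10 := h9.1
    simp [e] at h10
  obtain ⟨w₁, hw₁, w₂, hw₂, hdet, hgen, -⟩ := h_lat2 (T H) (lin g 2 2) hχ hdisc
    (conj_T H g hg t1 t2) hbot
  obtain ⟨τ₁, hτ₁, h3, h4, h5⟩ := hw₁
  obtain ⟨τ₂, hτ₂, h6, h7, h8⟩ := hw₂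
  refine ⟨τ₁, hτ₁, τ₂, hτ₂, h3, h6, ?_, ?_⟩
  · rw [h4, h5, h7, h8]
    exact hdet
  · intro τ hτ h9
    obtain ⟨m, n, hmn⟩ := hgen ![tr τ 1, tr τ 2] ⟨τ, hτ, h9, rfl, rfl⟩
    refine ⟨m, n, ?_, ?_⟩
    · have : tr τ 1 = m • (w₁ 0) + n • (w₂ 0) := congrFun hmn 0
      rw [this, h4, h7, zsmul_eq_mul, zsmul_eq_mul]
    · have : tr τ 2 = m • (w₁ 1) + n • (w₂ 1) := congrFun hmn 1
      rw [this, h5, h8, zsmul_eq_mul, zsmul_eq_mul]

end Pool.Agent.Helper64.K3.T2disc
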