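import Pool.Agent.Helper77.K3.DefsII
import Pool.Agent.Helper33.K3.coord

/-!
# Kleinian structures in dimension three: invariant line, nonelementary quotient block
-/

set_option autoImplicit false

open Set Filter Topology Matrix

namespace Pool.Agent.Helper64.K3.TwoBn

open Pool.Agent.Helper77.K3 Pool.Agent.Helper33.K3

/-- The class modulo `e 0`. -/
def bar (v : E) : Fin 2 → ℝ := ![v 1, v 2]

/-- The area form. -/
def cr (a b : Fin 2 → ℝ) : ℝ := a 0 * b 1 - a 1 * b 0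

lemma bar0 (v : E) : bar v 0 = v 1 := rfl

lemma bar1 (v : E) : bar v 1 = v 2 := rfl

lemma ind3 (a b : E) : Ind3 (e 0) a b ↔ cr (bar a) (bar b) ≠ 0 := by
  have h : (Matrix.of ![e 0, a, b] : M3).det = cr (bar a) (bar b) := by
    rw [Matrix.det_fin_three, cr, bar0, bar0, bar1, bar1]
    simp [e]
  rw [← h, ← isUnit_iff_ne_zero, ← Matrix.isUnit_iff_isUnit_det,
    ← Matrix.linearIndependent_rows_iff_isUnit]
  rfl

/-- The functional `cr v`. -/
noncomputable def al (v : Fin 2 → ℝ) : (Fin 2 → ℝ) →ₗ[ℝ] ℝ :=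
  v 0 • (LinearMap.proj 1 : (Fin 2 → ℝ) →ₗ[ℝ] ℝ) - v 1 • (LinearMap.proj 0 : (Fin 2 → ℝ) →ₗ[ℝ] ℝ)

lemma al_apply (v w : Fin 2 → ℝ) : al v w = cr v w := rfl

lemma al_ne (v : Fin 2 → ℝ) (hv : v ≠ 0) : al v ≠ 0 := by
  intro h
  apply hv
  have h1 := congrArg (fun f => f ![0, 1]) h
  have h2 := congrArg (fun f => f ![1, 0]) h
  simp only [al_apply, cr, LinearMap.zero_apply, Matrix.cons_val_zero, Matrix.cons_val_one,
    mul_one, mul_zero, sub_zero, zero_sub, neg_eq_zero] at h1 h2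
  ext i
  fin_cases i
  · exact h1
  · exact h2

lemma cr_ne_left {a b : Fin 2 → ℝ} (h : cr a b ≠ 0) : a ≠ 0 := by
  rintro rfl
  simp [cr] at h

lemma cr_ne_right {a b : Fin 2 → ℝ} (h : cr a b ≠ 0) : b ≠ 0 := by
  rintro rfl
  simp [cr] at h

lemma mv0 (A : M2) (v : Fin 2 → ℝ) : (A *ᵥ v) 0 = A 0 0 * v 0 + A 0 1 * v 1 := by
  simp [Matrix.mulVec, dotProduct, Fin.sum_univ_two]

lemma mv1 (A : M2) (v : Fin 2 → ℝ) : (A *ᵥ v) 1 = A 1 0 * v 0 + A 1 1 * v 1 := by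
  simp [Matrix.mulVec, dotProduct, Fin.sum_univ_two]

lemma cr_mv (A : M2) (u s : Fin 2 → ℝ) : cr (A *ᵥ u) (A *ᵥ s) = A.det * cr u s := by
  rw [cr, cr, mv0, mv0, mv1, mv1, Matrix.det_fin_two]
  ring

lemma cr_tr (A : M2) (u s : Fin 2 → ℝ) :
    cr (A *ᵥ u) s + cr u (A *ᵥ s) = (A 0 0 + A 1 1) * cr u s := by
  rw [cr, cr, cr, mv0, mv0, mv1, mv1]
  ring

lemma cr_smul_left (a : ℝ) (u s : Fin 2 → ℝ) : cr (a • u) s = a * cr u s := by
  simp only [cr, Pi.smul_apply, smul_eq_mul]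
  ring

lemma cr_smul_right (a : ℝ) (u s : Fin 2 → ℝ) : cr u (a • s) = a * cr u s := by
  simp only [cr, Pi.smul_apply, smul_eq_mul]
  ring

lemma cr_swap (u s : Fin 2 → ℝ) : cr u s = - cr s u := by
  simp only [cr]
  ring

/-- Two vectors with zero area are proportional. -/
lemma prop_of_cr {u s : Fin 2 → ℝ} (hu : u ≠ 0) (h : cr u s = 0) : ∃ t : ℝ, s = t • u := by
  have h0 : u 0 ≠ 0 ∨ u 1 ≠ 0 := by
    by_contra hcon
    push Not at hcon
    apply hu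
    ext i
    fin_cases i
    · exact hcon.1
    · exact hcon.2
  rw [cr] at h
  rcases h0 with h0 | h0
  · refine ⟨s 0 / u 0, ?_⟩
    ext i
    fin_cases i
    · show s 0 = s 0 / u 0 * u 0
      field_simp
    · show s 1 = s 0 / u 0 * u 1
      field_simp
      linarith
  · refine ⟨s 1 / u 1, ?_⟩
    ext i
    fin_cases i
    · show s 0 = s 1 / u 1 * u 0
      field_simp
      linarith
    · show s 1 = s 1 / u 1 * u 1
      field_simp

lemma cr_eig {A : M2} {u s : Fin 2 → ℝ} {a b : ℝ} (hu : u ≠ 0) (hs : s ≠ 0) (hab : a ≠ b)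
    (h1 : A *ᵥ u = a • u) (h2 : A *ᵥ s = b • s) : cr u s ≠ 0 := by
  intro h
  obtain ⟨t, rfl⟩ := prop_of_cr hu h
  rw [Matrix.mulVec_smul, h1, smul_comm] at h2
  have h3 : (a - b) • (t • u) = 0 := by rw [sub_smul, h2, sub_self]
  rcases smul_eq_zero.1 h3 with h4 | h4
  · exact hab (sub_eq_zero.1 h4)
  · exact hs h4

lemma tr_det_eig {A : M2} {u s : Fin 2 → ℝ} {a b : ℝ} (hu : u ≠ 0) (hs : s ≠ 0) (hab : a ≠ b)
    (h1 : A *ᵥ u = a • u) (h2 : A *ᵥ s = b • s) : A 0 0 + A 1 1 = a + b ∧ A.det = a * b := by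
  have h3 := cr_eig hu hs hab h1 h2
  constructor
  · have h4 := cr_tr A u s
    rw [h1, h2, cr_smul_left, cr_smul_right, ← add_mul] at h4
    exact (mul_right_cancel₀ h3 h4).symm
  · have h4 := cr_mv A u s
    rw [h1, h2, cr_smul_left, cr_smul_right, ← mul_assoc] at h4
    exact (mul_right_cancel₀ h3 h4).symm

/-! ## The group -/

variable {D : KData} {ρ : D.Γ →* M2}

lemma lin_e0 (hL : D.LineInv) (γ : Aff3) (hγ : γ ∈ D.Γ) : γ.linear (e 0) = lin γ 0 0 • e 0 := by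
  ext i
  have h := hL γ hγ
  have h' : γ.linear (e 0) i = lin γ i 0 := rfl
  rw [h']
  fin_cases i
  · simp [e]
  · simp [e, h.1]
  · simp [e, h.2]

lemma bar_lin (hL : D.LineInv)
    (hρ : ∀ γ : D.Γ, ρ γ = !![lin γ.1 1 1, lin γ.1 1 2; lin γ.1 2 1, lin γ.1 2 2])
    (γ : D.Γ) (v : E) : bar (γ.1.linear v) = ρ γ *ᵥ bar v := by
  have h := hL γ.1 γ.2
  ext i
  fin_cases i
  · show bar (γ.1.linear v) 0 = (ρ γ *ᵥ bar v) 0
    rw [mv0, bar0, bar0, bar1, linear_eq, h.1, hρ]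
    simp
  · show bar (γ.1.linear v) 1 = (ρ γ *ᵥ bar v) 1
    rw [mv1, bar0, bar1, bar1, linear_eq, h.2, hρ]
    simp

/-- The character on the invariant line. -/
noncomputable def lamR (hL : D.LineInv) : D.Γ →* ℝ where
  toFun γ := lin γ.1 0 0
  map_one' := by
    show (e 0 : E) 0 = 1
    simp [e]
  map_mul' γ δ := by
    show lin (γ.1 * δ.1) 0 0 = _
    rw [lin_mul, (hL δ.1 δ.2).1, (hL δ.1 δ.2).2]
    ring

lemma lamR_apply (hL : D.LineInv) (γ : D.Γ) : lamR hL γ = lin γ.1 0 0 := rfl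

lemma det_eq (hL : D.LineInv)
    (hρ : ∀ γ : D.Γ, ρ γ = !![lin γ.1 1 1, lin γ.1 1 2; lin γ.1 2 1, lin γ.1 2 2])
    (γ : D.Γ) : |lamR hL γ * (ρ γ).det| = 1 := by
  have h := hL γ.1 γ.2
  have h1 := D.det γ.1 γ.2
  rw [← mat_det, Matrix.det_fin_three] at h1
  have hm : ∀ i j, mat γ.1 i j = lin γ.1 i j := fun i j => rfl
  simp only [hm, h.1, h.2] at h1
  rw [lamR_apply, hρ, Matrix.det_fin_two_of]
  rw [← h1]
  congr 1
  ring

lemma lam_ne (hL : D.LineInv)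
    (hρ : ∀ γ : D.Γ, ρ γ = !![lin γ.1 1 1, lin γ.1 1 2; lin γ.1 2 1, lin γ.1 2 2])
    (γ : D.Γ) : lamR hL γ ≠ 0 := by
  intro h
  have := det_eq hL hρ γ
  rw [h] at this
  simp at this

lemma rdet_ne (hL : D.LineInv)
    (hρ : ∀ γ : D.Γ, ρ γ = !![lin γ.1 1 1, lin γ.1 1 2; lin γ.1 2 1, lin γ.1 2 2])
    (γ : D.Γ) : (ρ γ).det ≠ 0 := by
  intro h
  have := det_eq hL hρ γ
  rw [h] at this
  simp at this

lemma lam_inv (hL : D.LineInv) (γ : D.Γ) : lamR hL γ⁻¹ = (lamR hL γ)⁻¹ := by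
  have h : lamR hL γ⁻¹ * lamR hL γ = 1 := by rw [← map_mul, inv_mul_cancel, map_one]
  exact eq_inv_of_mul_eq_one_left h

lemma lam_derived (hL : D.LineInv) (f : D.Γ) (hf : f ∈ derivedSeries D.Γ 2) : lamR hL f = 1 := by
  have h1 : f ∈ derivedSeries D.Γ 1 := derivedSeries_antitone D.Γ (by norm_num) hf
  rw [derivedSeries_one] at h1
  have h2 := Abelianization.commutator_subset_ker (lamR hL).toHomUnits h1
  rw [MonoidHom.mem_ker] at h2
  have h3 := congrArg Units.val h2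
  simpa using h3

/-! ## The saddle -/

/-- Eigenvectors of a matrix with a root of the characteristic polynomial. -/
lemma exists_eig (A : M2) (x : ℝ) (h : x ^ 2 - (A 0 0 + A 1 1) * x + A.det = 0) :
    ∃ w : Fin 2 → ℝ, w ≠ 0 ∧ A *ᵥ w = x • w := by
  have h1 : (A - x • (1 : M2)).det = 0 := by
    rw [Matrix.det_fin_two] at h ⊢
    simp only [Matrix.sub_apply, Matrix.smul_apply, Matrix.one_apply, smul_eq_mul]
    simp only [if_true, Fin.isValue, zero_ne_one, one_ne_zero, if_false]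
    linarith
  obtain ⟨w, hw, h2⟩ := Matrix.exists_mulVec_eq_zero_iff.2 h1
  refine ⟨w, hw, ?_⟩
  rw [Matrix.sub_mulVec, Matrix.smul_mulVec, Matrix.one_mulVec, sub_eq_zero] at h2
  exact h2

lemma exists_roots (T d lam : ℝ) (hd : 0 < d) (h1 : 1 - T + d < 0) (hl : 1 < lam)
    (h2 : lam ^ 2 - T * lam + d < 0) :
    ∃ m₂ m₃ : ℝ, lam < m₂ ∧ 0 < m₃ ∧ m₃ < 1 ∧ m₂ ^ 2 - T * m₂ + d = 0 ∧
      m₃ ^ 2 - T * m₃ + d = 0 := by
  have hc : Continuous fun x : ℝ => x ^ 2 - T * x + d := by fun_prop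
  obtain ⟨m₃, hm, h3⟩ := intermediate_value_Icc' (zero_le_one (α := ℝ)) hc.continuousOn
    (show (0 : ℝ) ∈ Icc ((fun x : ℝ => x ^ 2 - T * x + d) 1) ((fun x : ℝ => x ^ 2 - T * x + d) 0)
      from ⟨by simp only; nlinarith, by simp only; nlinarith⟩)
  obtain ⟨m₂, hm', h4⟩ := intermediate_value_Icc (show lam ≤ lam + |T| + 1 by
      have := abs_nonneg T
      linarith) hc.continuousOn
    (show (0 : ℝ) ∈ Icc ((fun x : ℝ => x ^ 2 - T * x + d) lam)
      ((fun x : ℝ => x ^ 2 - T * x + d) (lam + |T| + 1)) from ⟨h2.le, by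
        simp only
        have h5 := abs_nonneg T
        have h6 := le_abs_self T
        nlinarith⟩)
  simp only at h3 h4
  refine ⟨m₂, m₃, lt_of_le_of_ne hm'.1 ?_, lt_of_le_of_ne hm.1 ?_, lt_of_le_of_ne hm.2 ?_, h4, h3⟩
  · rintro rfl
    linarith
  · rintro rfl
    nlinarith
  · rintro rfl
    nlinarith

/-- A saddle from an element whose block has large trace. -/
lemma saddle (hL : D.LineInv)
    (hρ : ∀ γ : D.Γ, ρ γ = !![lin γ.1 1 1, lin γ.1 1 2; lin γ.1 2 1, lin γ.1 2 2])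
    (γ : D.Γ) (hl : 1 < lamR hL γ) (hd : 0 < (ρ γ).det)
    (h1 : 1 - (ρ γ 0 0 + ρ γ 1 1) + (ρ γ).det < 0)
    (h2 : (lamR hL γ) ^ 2 - (ρ γ 0 0 + ρ γ 1 1) * lamR hL γ + (ρ γ).det < 0) :
    ∃ (p v₂ v₃ : E) (m₂ m₃ : ℝ), γ.1 p = p ∧ γ.1.linear v₂ = m₂ • v₂ ∧ γ.1.linear v₃ = m₃ • v₃ ∧
      1 < m₂ ∧ 0 < m₃ ∧ m₃ < 1 ∧ Ind3 (e 0) v₂ v₃ := by
  obtain ⟨m₂, m₃, hm₂, hm0, hm1, hr₂, hr₃⟩ := exists_roots _ _ _ hd h1 hl h2
  obtain ⟨w₂, hw₂, he₂⟩ := exists_eig _ _ hr₂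
  obtain ⟨w₃, hw₃, he₃⟩ := exists_eig _ _ hr₃
  have hlin := hL γ.1 γ.2
  have lift : ∀ (m : ℝ) (w : Fin 2 → ℝ), m ≠ lamR hL γ → ρ γ *ᵥ w = m • w →
      ∃ v : E, γ.1.linear v = m • v ∧ bar v = w := by
    intro m w hm hw
    refine ⟨![(lin γ.1 0 1 * w 0 + lin γ.1 0 2 * w 1) / (m - lamR hL γ), w 0, w 1], ?_, ?_⟩
    · have hne : m - lamR hL γ ≠ 0 := sub_ne_zero.2 hm
      have e0 := congrFun hw 0
      have e1 := congrFun hw 1
      rw [mv0, hρ] at e0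
      rw [mv1, hρ] at e1
      simp only [Matrix.of_apply, Matrix.cons_val_zero, Matrix.cons_val_one, Matrix.cons_val',
        Matrix.cons_val_fin_one, Pi.smul_apply, smul_eq_mul] at e0 e1
      ext i
      rw [linear_eq]
      fin_cases i
      · simp only [Fin.zero_eta, Matrix.cons_val_zero, Matrix.cons_val_one, Matrix.cons_val,
          Pi.smul_apply, smul_eq_mul, ← lamR_apply hL γ]
        field_simp
        ring
      · simp only [Fin.mk_one, Matrix.cons_val_zero, Matrix.cons_val_one, Matrix.cons_val,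
          Pi.smul_apply, smul_eq_mul, hlin.1]
        linarith
      · simp only [Fin.reduceFinMk, Matrix.cons_val_zero, Matrix.cons_val_one, Matrix.cons_val,
          Pi.smul_apply, smul_eq_mul, hlin.2]
        linarith
    · ext i
      fin_cases i <;> rfl
  obtain ⟨v₂, hv₂, hb₂⟩ := lift m₂ w₂ hm₂.ne' he₂
  obtain ⟨v₃, hv₃, hb₃⟩ := lift m₃ w₃ (by linarith) he₃
  -- fixed point
  have hdet : (ρ γ 0 0 - 1) * (ρ γ 1 1 - 1) - ρ γ 0 1 * ρ γ 1 0 ≠ 0 := by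
    rw [Matrix.det_fin_two] at h1
    intro h
    linarith
  obtain ⟨p, hp⟩ : ∃ p : E, γ.1 p = p := by
    set a := lin γ.1 1 1 with ha
    set b := lin γ.1 1 2 with hb
    set c := lin γ.1 2 1 with hc
    set d := lin γ.1 2 2 with hd'
    have hdet' : (a - 1) * (d - 1) - b * c ≠ 0 := by
      rw [hρ] at hdet
      simpa using hdet
    set y : ℝ := (-(tr γ.1 1) * (d - 1) + b * tr γ.1 2) / ((a - 1) * (d - 1) - b * c) with hy
    set z : ℝ := (-(tr γ.1 2) * (a - 1) + c * tr γ.1 1) / ((a - 1) * (d - 1) - b * c) with hz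
    have hl1 : lamR hL γ - 1 ≠ 0 := by linarith
    have q1 : (a - 1) * y + b * z = - tr γ.1 1 := by
      rw [hy, hz, mul_div_assoc', mul_div_assoc', ← add_div, div_eq_iff hdet']
      ring
    have q2 : c * y + (d - 1) * z = - tr γ.1 2 := by
      rw [hy, hz, mul_div_assoc', mul_div_assoc', ← add_div, div_eq_iff hdet']
      ring
    refine ⟨![-(lin γ.1 0 1 * y + lin γ.1 0 2 * z + tr γ.1 0) / (lamR hL γ - 1), y, z], ?_⟩
    ext i
    rw [apply_coord]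
    fin_cases i
    · simp only [Fin.zero_eta, Matrix.cons_val_zero, Matrix.cons_val_one, Matrix.cons_val,
        ← lamR_apply hL γ]
      field_simp
      ring
    · simp only [Fin.mk_one, Matrix.cons_val_zero, Matrix.cons_val_one, Matrix.cons_val,
        hlin.1, ← ha, ← hb]
      linarith
    · simp only [Fin.reduceFinMk, Matrix.cons_val_zero, Matrix.cons_val_one, Matrix.cons_val,
        hlin.2, ← hc, ← hd']
      linarith
  refine ⟨p, v₂, v₃, m₂, m₃, hp, hv₂, hv₃, by linarith, hm0, hm1, ?_⟩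
  rw [ind3, hb₂, hb₃]
  exact cr_eig hw₂ hw₃ (by linarith) he₂ he₃

/-! ## General position -/

lemma linRep2_apply (f : D.Γ) (v : Fin 2 → ℝ) : linRep2 ρ f v = ρ f *ᵥ v :=
  Matrix.toLin'_apply _ _

lemma gen (h_gen : S_gen) (hirr : StrIrr (linRep2 ρ)) (n m : ℕ) (a v : Fin n → (Fin 2 → ℝ))
    (b w : Fin m → (Fin 2 → ℝ)) (ha : ∀ i, a i ≠ 0) (hv : ∀ i, v i ≠ 0) (hb : ∀ i, b i ≠ 0)
    (hw : ∀ i, w i ≠ 0) : ∃ f : D.Γ, (∀ i, cr (a i) (ρ f *ᵥ v i) ≠ 0) ∧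
      (∀ i, cr (b i) (ρ f⁻¹ *ᵥ w i) ≠ 0) := by
  obtain ⟨f, h1, h2⟩ := h_gen D.Γ (Fin 2 → ℝ) (linRep2 ρ) hirr (Fin n) (Fin m)
    (fun i => al (a i)) v (fun i => al (b i)) w (fun i => al_ne _ (ha i)) hv
    (fun i => al_ne _ (hb i)) hw
  refine ⟨f, fun i => ?_, fun i => ?_⟩
  · have := h1 i
    rwa [al_apply, linRep2_apply] at this
  · have := h2 i
    rwa [al_apply, linRep2_apply] at this

lemma rho_inv_mul (g : D.Γ) (v : Fin 2 → ℝ) : ρ g *ᵥ (ρ g⁻¹ *ᵥ v) = v := by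
  rw [Matrix.mulVec_mulVec, ← map_mul, mul_inv_cancel, map_one, Matrix.one_mulVec]

lemma rho_ne (g : D.Γ) (v : Fin 2 → ℝ) (hv : v ≠ 0) : ρ g *ᵥ v ≠ 0 := by
  intro h
  apply hv
  have h1 : ρ g⁻¹ *ᵥ (ρ g *ᵥ v) = v := by
    rw [Matrix.mulVec_mulVec, ← map_mul, inv_mul_cancel, map_one, Matrix.one_mulVec]
  rw [← h1, h, Matrix.mulVec_zero]

lemma exists_gamma0 (h_gen : S_gen) (hL : D.LineInv)
    (hρ : ∀ γ : D.Γ, ρ γ = !![lin γ.1 1 1, lin γ.1 1 2; lin γ.1 2 1, lin γ.1 2 2])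
    (hirr : StrIrr (linRep2 ρ)) (g : D.Γ) (hg : |lamR hL g| ≠ 1) (u s : Fin 2 → ℝ)
    (hus : cr u s ≠ 0) : ∃ γ₀ : D.Γ, 1 < |lamR hL γ₀| ∧ cr s (ρ γ₀ *ᵥ u) ≠ 0 := by
  have hs := cr_ne_right hus
  have hu := cr_ne_left hus
  obtain ⟨g₁, hg₁⟩ : ∃ g₁ : D.Γ, 1 < |lamR hL g₁| := by
    rcases lt_or_gt_of_ne hg with h | h
    · refine ⟨g⁻¹, ?_⟩
      rw [lam_inv, abs_inv]
      exact (one_lt_inv₀ (abs_pos.2 (lam_ne hL hρ g))).2 h
    · exact ⟨g, h⟩
  obtain ⟨f, h1, h2⟩ := gen (ρ := ρ) h_gen hirr 2 1 ![s, ρ g₁⁻¹ *ᵥ s] ![u, u] ![s] ![u]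
    (by
      intro i
      fin_cases i
      · exact hs
      · exact rho_ne _ _ hs)
    (by
      intro i
      fin_cases i
      · exact hu
      · exact hu)
    (by
      intro i
      fin_cases i
      exact hs)
    (by
      intro i
      fin_cases i
      exact hu)
  have h10 : cr s (ρ f *ᵥ u) ≠ 0 := h1 0
  have h11 : cr (ρ g₁⁻¹ *ᵥ s) (ρ f *ᵥ u) ≠ 0 := h1 1
  have h20 : cr s (ρ f⁻¹ *ᵥ u) ≠ 0 := h2 0
  rcases lt_trichotomy (|lamR hL f|) 1 with h | h | h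
  · refine ⟨f⁻¹, ?_, h20⟩
    rw [lam_inv, abs_inv]
    exact (one_lt_inv₀ (abs_pos.2 (lam_ne hL hρ f))).2 h
  · refine ⟨g₁ * f, ?_, ?_⟩
    · rw [map_mul, abs_mul, h, mul_one]
      exact hg₁
    · rw [map_mul, ← Matrix.mulVec_mulVec]
      have h3 := cr_mv (ρ g₁) (ρ g₁⁻¹ *ᵥ s) (ρ f *ᵥ u)
      rw [rho_inv_mul] at h3
      rw [h3]
      exact mul_ne_zero (rdet_ne hL hρ g₁) h11
  · exact ⟨f, h, h10⟩

lemma bar_smul (t : ℝ) (v : E) : bar (t • v) = t • bar v := by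
  ext i
  fin_cases i <;> rfl

/-- Case `|λ| = 1`. -/
lemma caseA (h_move : S_move) (h_leafB : S_leafB) (hL : D.LineInv)
    (hρ : ∀ γ : D.Γ, ρ γ = !![lin γ.1 1 1, lin γ.1 1 2; lin γ.1 2 1, lin γ.1 2 2])
    (hirr : StrIrr (linRep2 ρ)) (hA : ∀ f : D.Γ, |lamR hL f| = 1) (γ : Aff3) (μ c : ℝ)
    (p u s : E) (hγ : γ ∈ D.Γ) (hF : HypF γ μ c p u s) : False := by
  have hΩinv : ∀ x ∈ D.Ω, ∀ t : ℝ, x + t • e 0 ∈ D.Ω := by
    refine h_leafB D ⊥ (e 0) (fun γ => lin γ 0 0) ?_ ?_ ⟨1, fun γ hγ => ?_⟩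
    · intro x hx w hw
      rw [Submodule.mem_bot] at hw
      rwa [hw, add_zero]
    · intro γ hγ
      rw [lin_e0 hL γ hγ, sub_self]
      exact Submodule.zero_mem _
    · exact (hA ⟨γ, hγ⟩).le
  have hKI : D.KInv := by
    intro x hx t hc
    refine hx ?_
    have h2 := hΩinv _ hc (-t)
    rwa [add_assoc, ← add_smul, add_neg_cancel, zero_smul, add_zero] at h2
  have hus : cr (bar u) (bar s) ≠ 0 := (ind3 u s).1 hF.2.2.2.2.2
  have hs := cr_ne_right hus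
  have hfin : Finite (lamR hL).toHomUnits.range := by
    have h1 : ((lamR hL).toHomUnits.range : Set ℝˣ) ⊆ {1, -1} := by
      rintro y ⟨f, rfl⟩
      have h2 := hA f
      rcases eq_or_eq_neg_of_abs_eq h2 with h3 | h3
      · left
        exact Units.ext h3
      · right
        refine Units.ext ?_
        rw [Units.val_neg, Units.val_one]
        exact h3
    exact ((Set.toFinite {1, -1}).subset h1).to_subtype
  have hFI : (lamR hL).toHomUnits.ker.FiniteIndex := inferInstance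
  obtain ⟨h, hh, hc⟩ : ∃ h : D.Γ, lamR hL h = 1 ∧ cr (bar s) (ρ h *ᵥ bar s) ≠ 0 := by
    by_contra hcon
    push Not at hcon
    have h1 := hirr _ hFI (Submodule.span ℝ {bar s}) (by
      intro f hf v hv
      have hf1 : lamR hL f = 1 := by
        rw [MonoidHom.mem_ker] at hf
        have := congrArg Units.val hf
        simpa using this
      rw [Submodule.mem_span_singleton] at hv ⊢
      obtain ⟨a, rfl⟩ := hv
      obtain ⟨b, hb⟩ := prop_of_cr hs (hcon f hf1)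
      refine ⟨a * b, ?_⟩
      rw [linRep2_apply, Matrix.mulVec_smul, hb, smul_smul])
    rcases h1 with h1 | h1
    · rw [Submodule.span_singleton_eq_bot] at h1
      exact hs h1
    · have h2 : bar u ∈ Submodule.span ℝ {bar s} := by
        rw [h1]
        exact Submodule.mem_top
      rw [Submodule.mem_span_singleton] at h2
      obtain ⟨a, ha⟩ := h2
      apply hus
      rw [← ha, cr_smul_left, cr]
      ring
  refine h_move D γ h.1 μ c p u s hKI hγ h.2 hF ?_ ?_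
  · rw [lin_e0 hL h.1 h.2, ← lamR_apply hL h, hh, one_smul]
  · rw [ind3, bar_lin hL hρ]
    exact hc

/-- Case of a hyperbolic element with a height translation. -/
lemma caseB1 (h_gen : S_gen) (h_frame : S_frame) (h_B2 : S_B2) (hL : D.LineInv)
    (hρ : ∀ γ : D.Γ, ρ γ = !![lin γ.1 1 1, lin γ.1 1 2; lin γ.1 2 1, lin γ.1 2 2])
    (hirr : StrIrr (linRep2 ρ)) (g : D.Γ) (hg : |lamR hL g| ≠ 1) (γ : Aff3) (μ c : ℝ)
    (p u s : E) (hγ : γ ∈ D.Γ) (hF : HypF γ μ c p u s) (hc : c ≠ 0) : False := by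
  have hus : cr (bar u) (bar s) ≠ 0 := (ind3 u s).1 hF.2.2.2.2.2
  have hs := cr_ne_right hus
  have hu := cr_ne_left hus
  obtain ⟨hμ, hFe, hFu, hFs, hFp, hind⟩ := id hF
  set δ : D.Γ := ⟨γ, hγ⟩ with hδ
  have eu : ρ δ *ᵥ bar u = μ • bar u := by
    rw [← bar_lin hL hρ]
    show bar (γ.linear u) = _
    rw [hFu, bar_smul]
  have es : ρ δ *ᵥ bar s = μ⁻¹ • bar s := by
    rw [← bar_lin hL hρ]
    show bar (γ.linear s) = _
    rw [hFs, bar_smul]
  have eu' : ∀ k : ℕ, ρ (δ ^ k) *ᵥ bar u = μ ^ k • bar u := by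
    intro k
    induction k with
    | zero => rw [pow_zero, pow_zero, map_one, Matrix.one_mulVec, one_smul]
    | succ k ih =>
      rw [pow_succ, map_mul, ← Matrix.mulVec_mulVec, eu, Matrix.mulVec_smul, ih, smul_smul,
        pow_succ, mul_comm]
  have es' : ∀ k : ℕ, ρ (δ ^ k) *ᵥ bar s = μ⁻¹ ^ k • bar s := by
    intro k
    induction k with
    | zero => rw [pow_zero, pow_zero, map_one, Matrix.one_mulVec, one_smul]
    | succ k ih =>
      rw [pow_succ, map_mul, ← Matrix.mulVec_mulVec, es, Matrix.mulVec_smul, ih, smul_smul,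
        pow_succ, mul_comm]
  have hμ1 : μ ≠ μ⁻¹ := by
    have : μ⁻¹ < 1 := inv_lt_one_of_one_lt₀ hμ
    linarith
  have hdδ : (ρ δ).det = 1 := by
    rw [(tr_det_eig hu hs hμ1 eu es).2]
    exact mul_inv_cancel₀ (by linarith)
  have hlδ : lamR hL δ = 1 := by
    have h1 := congrFun hFe 0
    rw [lamR_apply]
    show γ.linear (e 0) 0 = 1
    rw [h1]
    simp [e]
  obtain ⟨γ₀, hγ₀, hcr⟩ := exists_gamma0 h_gen hL hρ hirr g hg (bar u) (bar s) hus
  -- large trace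
  set P := cr (ρ γ₀ *ᵥ bar u) (bar s) with hP
  set Q := cr (bar u) (ρ γ₀ *ᵥ bar s) with hQ
  set R := cr (bar u) (bar s) with hR
  have hP0 : P ≠ 0 := by
    rw [hP, cr_swap]
    exact neg_ne_zero.2 hcr
  have htr : ∀ k : ℕ, (ρ (γ₀ * δ ^ k) 0 0 + ρ (γ₀ * δ ^ k) 1 1) * R = μ ^ k * P + μ⁻¹ ^ k * Q := by
    intro k
    have h1 := cr_tr (ρ (γ₀ * δ ^ k)) (bar u) (bar s)
    rw [map_mul, ← Matrix.mulVec_mulVec, ← Matrix.mulVec_mulVec, eu', es', Matrix.mulVec_smul,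
      Matrix.mulVec_smul, cr_smul_left, cr_smul_right, ← map_mul] at h1
    exact h1.symm
  have hbig : ∀ M : ℝ, ∃ k : ℕ, M < (ρ (γ₀ * δ ^ k) 0 0 + ρ (γ₀ * δ ^ k) 1 1) ^ 2 := by
    intro M
    obtain ⟨k, hk⟩ := pow_unbounded_of_one_lt ((|Q| + |R| * (|M| + 1)) / |P|) hμ
    refine ⟨k, ?_⟩
    rw [div_lt_iff₀ (abs_pos.2 hP0)] at hk
    have h1 : |μ⁻¹ ^ k * Q| ≤ |Q| := by
      rw [abs_mul]
      have h2 : |μ⁻¹ ^ k| ≤ 1 := by
        rw [abs_of_nonneg (by positivity)]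
        exact pow_le_one₀ (by positivity) (inv_lt_one_of_one_lt₀ hμ).le
      nlinarith [abs_nonneg Q]
    have h2 : |μ ^ k * P| = μ ^ k * |P| := by
      rw [abs_mul, abs_of_nonneg (by positivity)]
    have h3 : μ ^ k * |P| - |Q| ≤ |(ρ (γ₀ * δ ^ k) 0 0 + ρ (γ₀ * δ ^ k) 1 1) * R| := by
      rw [htr, ← h2]
      have h4 := abs_sub_abs_le_abs_sub (μ ^ k * P) (-(μ⁻¹ ^ k * Q))
      rw [abs_neg, sub_neg_eq_add] at h4
      linarith
    rw [abs_mul] at h3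
    have hRp : 0 < |R| := abs_pos.2 hus
    have h5 : |M| + 1 < |ρ (γ₀ * δ ^ k) 0 0 + ρ (γ₀ * δ ^ k) 1 1| := by
      by_contra hcon
      push Not at hcon
      have := mul_le_mul_of_nonneg_right hcon hRp.le
      linarith
    rw [← sq_abs]
    have h6 := abs_nonneg M
    have h7 := le_abs_self M
    nlinarith
  set d₀ := (ρ γ₀).det with hd₀
  have hd₀n : d₀ ≠ 0 := rdet_ne hL hρ γ₀
  set l := lamR hL γ₀ with hl
  have hl1 : 1 < l ^ 2 := by
    rw [← sq_abs]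
    nlinarith
  obtain ⟨k, hk⟩ := hbig (2 * |d₀| + l ^ 2 + 1 + d₀ ^ 2)
  set A := γ₀ * δ ^ k with hA
  have hdA : (ρ A).det = d₀ := by
    rw [hA, map_mul, Matrix.det_mul, map_pow, Matrix.det_pow, hdδ, one_pow, mul_one]
  have hlA : lamR hL A = l := by
    rw [hA, map_mul, map_pow, hlδ, one_pow, mul_one]
  have hAA : ρ (A * A) 0 0 + ρ (A * A) 1 1 = (ρ A 0 0 + ρ A 1 1) ^ 2 - 2 * d₀ := by
    rw [← hdA, map_mul, Matrix.det_fin_two, Matrix.mul_apply, Matrix.mul_apply, Fin.sum_univ_two,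
      Fin.sum_univ_two]
    ring
  have hdAA : (ρ (A * A)).det = d₀ ^ 2 := by
    rw [map_mul, Matrix.det_mul, hdA]
    ring
  have hlAA : lamR hL (A * A) = l ^ 2 := by
    rw [map_mul, hlA]
    ring
  have hd2 := le_abs_self d₀
  obtain ⟨p', v₂, v₃, m₂, m₃, hp', hv₂, hv₃, hm₂, hm0, hm1, hv⟩ := saddle hL hρ (A * A)
    (by rw [hlAA]; exact hl1) (by rw [hdAA]; positivity)
    (by
      rw [hAA, hdAA]
      nlinarith)
    (by
      rw [hAA, hdAA, hlAA]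
      nlinarith [sq_nonneg (d₀)])
  have hv' := (ind3 _ _).1 hv
  have hb₂ := cr_ne_left hv'
  have hb₃ := cr_ne_right hv'
  obtain ⟨h, h1, -⟩ := gen (ρ := ρ) h_gen hirr 4 0 ![bar v₂, bar v₃, bar v₂, bar v₃]
    ![bar u, bar u, bar s, bar s] ![] ![]
    (by
      intro i
      fin_cases i
      · exact hb₂
      · exact hb₃
      · exact hb₂
      · exact hb₃)
    (by
      intro i
      fin_cases i
      · exact hu
      · exact hu
      · exact hs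
      · exact hs)
    (fun i => i.elim0) (fun i => i.elim0)
  have h10 : cr (bar v₂) (ρ h *ᵥ bar u) ≠ 0 := h1 0
  have h11 : cr (bar v₃) (ρ h *ᵥ bar u) ≠ 0 := h1 1
  have h12 : cr (bar v₂) (ρ h *ᵥ bar s) ≠ 0 := h1 2
  have h13 : cr (bar v₃) (ρ h *ᵥ bar s) ≠ 0 := h1 3
  have hln := lam_ne hL hρ h
  have hF' := h_frame.2.2.1 γ μ c p u s h.1 (lamR hL h) hF (lin_e0 hL h.1 h.2) hln
  refine h_B2 D (h.1 * γ * h.1⁻¹) (A * A).1 μ (lamR hL h * c) (h.1 p) (h.1.linear u)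
    (h.1.linear s) p' v₂ v₃ (l ^ 2) m₂ m₃
    (D.Γ.mul_mem (D.Γ.mul_mem h.2 hγ) (D.Γ.inv_mem h.2)) (A * A).2 hF' (mul_ne_zero hln hc) hp'
    ?_ hv₂ hv₃ hl1 hm₂ hm0 hm1 hv ?_ ?_ ?_ ?_
  · rw [lin_e0 hL _ (A * A).2, ← lamR_apply hL (A * A), hlAA]
  · rw [ind3, bar_lin hL hρ, cr_swap]
    exact neg_ne_zero.2 h10
  · rw [ind3, bar_lin hL hρ, cr_swap]
    exact neg_ne_zero.2 h11
  · rw [ind3, bar_lin hL hρ, cr_swap]
    exact neg_ne_zero.2 h12
  · rw [ind3, bar_lin hL hρ, cr_swap]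
    exact neg_ne_zero.2 h13

/-- A closed periodic set of heights is not invariant under a dilation. -/
lemma no_dilation (S : Set ℝ) (hS : IsClosed S) (hne : S.Nonempty) (hu : S ≠ univ) (d : ℝ)
    (hd : d ≠ 0) (hper : ∀ t, t ∈ S ↔ t + d ∈ S) (l β : ℝ) (hl : 1 < |l|)
    (hdil : ∀ t, t ∈ S ↔ l * t + β ∈ S) : False := by
  have hl0 : l ≠ 0 := by
    rintro rfl
    simp at hl
    linarith
  let Per : AddSubgroup ℝ :=
    { carrier := {r | ∀ t, t ∈ S ↔ t + r ∈ S}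
      zero_mem' := by
        intro t
        rw [add_zero]
      add_mem' := by
        intro a b ha hb t
        rw [ha t, hb (t + a), add_assoc]
      neg_mem' := by
        intro a ha t
        rw [ha (t + -a), neg_add_cancel_right] }
  have hmem : ∀ r, r ∈ Per ↔ ∀ t, t ∈ S ↔ t + r ∈ S := fun r => Iff.rfl
  have hclosed : IsClosed (Per : Set ℝ) := by
    have h1 : (Per : Set ℝ) = (⋂ t ∈ S, {r | t + r ∈ S}) ∩ (⋂ t ∈ S, {r | t - r ∈ S}) := by
      ext r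
      simp only [SetLike.mem_coe, hmem, mem_inter_iff, mem_iInter, Set.mem_ofPred_eq]
      constructor
      · intro h
        refine ⟨fun t ht => (h t).1 ht, fun t ht => (h (t - r)).2 ?_⟩
        rwa [sub_add_cancel]
      · rintro ⟨h1, h2⟩ t
        refine ⟨h1 t, fun h => ?_⟩
        have := h2 _ h
        rwa [add_sub_cancel_right] at this
    rw [h1]
    refine IsClosed.inter ?_ ?_
    · exact isClosed_biInter fun t _ => hS.preimage (by fun_prop)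
    · exact isClosed_biInter fun t _ => hS.preimage (by fun_prop)
  have hdiv : ∀ r, l * r ∈ Per → r ∈ Per := by
    intro r hr t
    rw [hdil t, hr (l * t + β), hdil (t + r)]
    have : l * t + β + l * r = l * (t + r) + β := by ring
    rw [this]
  rcases AddSubgroup.dense_or_cyclic Per with h | ⟨a, ha⟩
  · have h1 : (Per : Set ℝ) = univ := by
      rw [← hclosed.closure_eq]
      exact h.closure_eq
    apply hu
    rw [eq_univ_iff_forall]
    intro x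
    obtain ⟨y, hy⟩ := hne
    have h2 : x - y ∈ Per := by
      have : x - y ∈ (Per : Set ℝ) := by
        rw [h1]
        exact mem_univ _
      exact this
    have h3 := (h2 y).1 hy
    rwa [add_sub_cancel] at h3
  · have hdm : d ∈ Per := hper
    have ha0 : a ≠ 0 := by
      rintro rfl
      rw [ha, AddSubgroup.closure_singleton_zero, AddSubgroup.mem_bot] at hdm
      exact hd hdm
    have h1 : a / l ∈ Per := by
      apply hdiv
      rw [mul_div_cancel₀ a hl0, ha]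
      exact AddSubgroup.mem_closure_singleton.2 ⟨1, one_zsmul a⟩
    rw [ha, AddSubgroup.mem_closure_singleton] at h1
    obtain ⟨n, hn⟩ := h1
    rw [zsmul_eq_mul] at hn
    have h2 : (n : ℝ) * l = 1 := by
      have h4 : (n : ℝ) * a * l = a := by rw [hn, div_mul_cancel₀ _ hl0]
      have h3 : (a : ℝ) * (n * l) = a * 1 := by linarith
      exact mul_left_cancel₀ ha0 h3
    have hn0 : n ≠ 0 := by
      rintro rfl
      simp at h2
    have h3 : (1 : ℝ) ≤ |(n : ℝ)| := by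
      have := Int.one_le_abs hn0
      exact_mod_cast this
    have h4 : |(n : ℝ)| * |l| = 1 := by rw [← abs_mul, h2, abs_one]
    nlinarith [abs_nonneg l]

/-- Case without height translations. -/
lemma caseB2 (h_gen : S_gen) (h_frame : S_frame) (h_per : S_per) (hL : D.LineInv)
    (hρ : ∀ γ : D.Γ, ρ γ = !![lin γ.1 1 1, lin γ.1 1 2; lin γ.1 2 1, lin γ.1 2 2])
    (hirr : StrIrr (linRep2 ρ)) (g : D.Γ) (hg : 1 < |lamR hL g|)
    (hall : ∀ δ ∈ D.Γ, ∀ ν c q v w, HypF δ ν c q v w → c = 0) (γ : Aff3) (μ : ℝ)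
    (p u s : E) (hγ : γ ∈ D.Γ) (hF : HypF γ μ 0 p u s) : False := by
  have hus : cr (bar u) (bar s) ≠ 0 := (ind3 u s).1 hF.2.2.2.2.2
  have hs := cr_ne_right hus
  have hu := cr_ne_left hus
  have hln := lam_ne hL hρ g
  have hF2 := h_frame.2.2.1 γ μ 0 p u s g.1 (lamR hL g) hF (lin_e0 hL g.1 g.2) hln
  rw [mul_zero] at hF2
  have hgu : ρ g *ᵥ bar u ≠ 0 := rho_ne _ _ hu
  have hgs : ρ g *ᵥ bar s ≠ 0 := rho_ne _ _ hs
  obtain ⟨h, h1, -⟩ := gen (ρ := ρ) h_gen hirr 8 0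
    ![bar u, bar u, bar s, bar s, ρ g *ᵥ bar u, ρ g *ᵥ bar u, ρ g *ᵥ bar s, ρ g *ᵥ bar s]
    ![bar u, bar s, bar u, bar s, bar u, bar s, bar u, bar s] ![] ![]
    (by
      intro i
      fin_cases i
      · exact hu
      · exact hu
      · exact hs
      · exact hs
      · exact hgu
      · exact hgu
      · exact hgs
      · exact hgs)
    (by
      intro i
      fin_cases i
      · exact hu
      · exact hs
      · exact hu
      · exact hs
      · exact hu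
      · exact hs
      · exact hu
      · exact hs)
    (fun i => i.elim0) (fun i => i.elim0)
  have h10 : cr (bar u) (ρ h *ᵥ bar u) ≠ 0 := h1 0
  have h11 : cr (bar u) (ρ h *ᵥ bar s) ≠ 0 := h1 1
  have h12 : cr (bar s) (ρ h *ᵥ bar u) ≠ 0 := h1 2
  have h13 : cr (bar s) (ρ h *ᵥ bar s) ≠ 0 := h1 3
  have h14 : cr (ρ g *ᵥ bar u) (ρ h *ᵥ bar u) ≠ 0 := h1 4
  have h15 : cr (ρ g *ᵥ bar u) (ρ h *ᵥ bar s) ≠ 0 := h1 5
  have h16 : cr (ρ g *ᵥ bar s) (ρ h *ᵥ bar u) ≠ 0 := h1 6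
  have h17 : cr (ρ g *ᵥ bar s) (ρ h *ᵥ bar s) ≠ 0 := h1 7
  have hF1 := h_frame.2.2.1 γ μ 0 p u s h.1 (lamR hL h) hF (lin_e0 hL h.1 h.2)
    (lam_ne hL hρ h)
  rw [mul_zero] at hF1
  have hm1 : h.1 * γ * h.1⁻¹ ∈ D.Γ := D.Γ.mul_mem (D.Γ.mul_mem h.2 hγ) (D.Γ.inv_mem h.2)
  have hm2 : g.1 * γ * g.1⁻¹ ∈ D.Γ := D.Γ.mul_mem (D.Γ.mul_mem g.2 hγ) (D.Γ.inv_mem g.2)
  obtain ⟨α, d, hd, hS1, hper, hne, hun, hcl⟩ := h_per D γ (h.1 * γ * h.1⁻¹) μ μ p u s (h.1 p)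
    (h.1.linear u) (h.1.linear s) hL hγ hm1 hall hF hF1
    (by rw [ind3, bar_lin hL hρ]; exact h10) (by rw [ind3, bar_lin hL hρ]; exact h11)
    (by rw [ind3, bar_lin hL hρ]; exact h12) (by rw [ind3, bar_lin hL hρ]; exact h13)
  obtain ⟨α', -, -, hS2, -⟩ := h_per D (g.1 * γ * g.1⁻¹) (h.1 * γ * h.1⁻¹) μ μ (g.1 p)
    (g.1.linear u) (g.1.linear s) (h.1 p) (h.1.linear u) (h.1.linear s) hL hm2 hm1 hall hF2 hF1
    (by rw [ind3, bar_lin hL hρ, bar_lin hL hρ]; exact h14)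
    (by rw [ind3, bar_lin hL hρ, bar_lin hL hρ]; exact h15)
    (by rw [ind3, bar_lin hL hρ, bar_lin hL hρ]; exact h16)
    (by rw [ind3, bar_lin hL hρ, bar_lin hL hρ]; exact h17)
  have hK : ∀ x, g.1 x ∈ D.K ↔ x ∈ D.K := by
    intro x
    constructor
    · intro hx hx2
      exact hx (D.inv g.1 g.2 x hx2)
    · intro hx hx2
      apply hx
      have h3 := D.inv g.1⁻¹ (D.Γ.inv_mem g.2) _ hx2
      have h4 : (g.1⁻¹ : Aff3) (g.1 x) = x := g.1.symm_apply_apply x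
      rwa [h4] at h3
  have hS3 : ∀ t, t ∈ D.hs p u ↔ lamR hL g * t ∈ D.hs (g.1 p) (g.1.linear u) := by
    intro t
    have h3 : ∀ a : ℝ, g.1 p + (lamR hL g * t) • e 0 + a • g.1.linear u =
        g.1 (p + t • e 0 + a • u) := by
      intro a
      rw [apply_eq g.1 (p + t • e 0 + a • u), apply_eq g.1 p, map_add, map_add, map_smul,
        map_smul, lin_e0 hL g.1 g.2, smul_smul, lamR_apply, mul_comm t]
      abel
    constructor
    · intro ht a
      rw [h3 a, hK]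
      exact ht a
    · intro ht a
      have := ht a
      rwa [h3 a, hK] at this
  refine no_dilation (D.hs p u) hcl hne hun d hd hper (lamR hL g) (α - α') hg ?_
  intro t
  rw [hS3 t]
  have h3 := hS1 (lamR hL g * t - α')
  have h4 := hS2 (lamR hL g * t - α')
  rw [sub_add_cancel] at h4
  rw [← h4, h3]
  have h5 : lamR hL g * t - α' + α = lamR hL g * t + (α - α') := by ring
  rw [h5]

theorem twoBn (h_hyp2 : S_hyp2) (h_gen : S_gen) (h_frame : S_frame) (h_move : S_move)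
    (h_B2 : S_B2) (h_per : S_per) (h_leafB : S_leafB) : S_2Bn := by
  intro D hL ρ hρ hirr hunb
  exfalso
  obtain ⟨f, hf, u₂, s₂, μ, hμ, hu₂, hs₂, e₁, e₂⟩ := h_hyp2 D.Γ ρ hirr hunb
  have hl := lam_derived hL f hf
  have hμ1 : μ ≠ μ⁻¹ := by
    have : μ⁻¹ < 1 := inv_lt_one_of_one_lt₀ hμ
    linarith
  obtain ⟨ht, hd⟩ := tr_det_eig hu₂ hs₂ hμ1 e₁ e₂
  rw [mul_inv_cancel₀ (by linarith), Matrix.det_fin_two] at hd
  rw [hρ] at ht hd
  simp only [Matrix.of_apply, Matrix.cons_val_zero, Matrix.cons_val_one, Matrix.cons_val',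
    Matrix.cons_val_fin_one] at ht hd
  obtain ⟨c, p, u, s, hF⟩ := h_frame.2.2.2.2.2 f.1 μ hl (hL f.1 f.2).1 (hL f.1 f.2).2 hμ ht hd
  by_cases hA : ∀ f : D.Γ, |lamR hL f| = 1
  · exact caseA h_move h_leafB hL hρ hirr hA f.1 μ c p u s f.2 hF
  push Not at hA
  obtain ⟨g, hg⟩ := hA
  by_cases hall : ∀ δ ∈ D.Γ, ∀ ν c q v w, HypF δ ν c q v w → c = 0
  · have hc := hall f.1 f.2 _ _ _ _ _ hF
    rw [hc] at hF
    rcases lt_or_gt_of_ne hg with h | h
    · refine caseB2 h_gen h_frame h_per hL hρ hirr g⁻¹ ?_ hall f.1 μ p u s f.2 hF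
      rw [lam_inv, abs_inv]
      exact (one_lt_inv₀ (abs_pos.2 (lam_ne hL hρ g))).2 h
    · exact caseB2 h_gen h_frame h_per hL hρ hirr g h hall f.1 μ p u s f.2 hF
  · push Not at hall
    obtain ⟨δ, hδ, ν, c, q, v, w, hF', hc⟩ := hall
    exact caseB1 h_gen h_frame h_B2 hL hρ hirr g hg δ ν c q v w hδ hF' hc

end Pool.Agent.Helper64.K3.TwoBn
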